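import Pool.Agent.H43.ZS.UB

/-!
# Brun-Titchmarsh in every short interval (MP_31d0eb_nt, EveryInterval): exponential sums, definitions and plan

THEOREM (`Fin.lean`, `expsum`). There are `c, C > 0` such that for all integers `A >= 1`, `A' <= 2A` and all real `Y`, `kap >= 0` with
`A^2 <= Y <= A^kap`:  `‖Σ_{A<a<=A'} e(Y/a)‖ <= exp(C kap^3) (1 + log A) A^(1 - c/kap^2)`.

* `Shf`: `m -> m + x y` with `1 <= x, y <= B`, `B` about `A^(1/3)`, geometric series of `Y/(m+xy)`; coefficients `aY`.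
* `WBg`: the bound of `H43/ZS` for the double sum `W` with general coefficients of the size
  `t/(2πk(3N)^(j+1)) <= |α_j| <= t/(2 N^(j+1))` (only this is used of the coefficients there).
* `Fin`: assembly.
-/

set_option autoImplicit false

namespace Pool.Agent.H1.BT

open Finset Pool.Agent.H43.ZS

/-- the Taylor coefficients of `Y/(m+z)`: `Y/(m+z) - Y/m = Σ_j aY_j z^(j+1) + ...`, `j = 0..k-1` -/
noncomputable def aY (k : ℕ) (Y : ℝ) (m : ℕ) : Fin k → ℝ :=
  fun j => (-1) ^ ((j : ℕ) + 1) * (Y / (m : ℝ) ^ ((j : ℕ) + 2))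

end Pool.Agent.H1.BT
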