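import Pool.Agent.H1.BT.Defs
import Pool.Agent.H43.ZS.Shift

/-!
# [H1 BT SHF] Shifting and the geometric series for `Y/m`

`A >= 1`, `2 A^2 <= N`, `N' <= 2N`, `Y >= 0`:
`‖Σ_{N<m<=N'} e(Y/m)‖ <= A^(-2) Σ_{N<m<=N'} ‖W k A (aY k Y m)‖ + 2A^2 + 2π Y (A^2/N)^(k+1)`.

PROOF. Copy the proof of `Pool.Agent.H43.ZS.shift` (file `Pool/Agent/H43/ZS/Shift.lean`). `shift_sum` (shift by `h` of a sum of unimodular terms)
and `shift_exp` (`|e^{ia}-e^{ib}| <= |a-b|`) can be cited; `shift_term` has to be replaced by: for `m > N >= 2A^2`, `1 <= x, y <= A`, `z = xy <= A^2`: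
`Y/(m+z) = Y/m + Σ_{j<k} aY_j z^(j+1) + r`, `r = (Y/m) (-z/m)^(k+1)/(1+z/m)` (finite geometric series
`1/(1+u) = Σ_{j=0}^{k} (-u)^j + (-u)^(k+1)/(1+u)`, `u = z/m`), `|r| <= (Y/m)(z/m)^(k+1) <= (Y/N)(A^2/N)^(k+1)`; hence
`‖ez(Y/(m+z)) - ez(Y/m) ez(Σ_j aY_j z^(j+1))‖ <= 2π (Y/N)(A^2/N)^(k+1)`; `‖ez(Y/m)‖ = 1`; sum over `x, y` and the at most `N` values of `m`.
-/

set_option autoImplicit false

namespace Pool.Agent.H1.BT

open Finset Pool.Agent.H43.ZS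

private theorem shf_ez (a b : ℝ) : ‖ez a - ez b‖ ≤ 2 * Real.pi * |a - b| := by
  have h := shift_exp (2 * Real.pi * a) (2 * Real.pi * b)
  have h1 : ∀ c : ℝ, ez c = Complex.exp (((2 * Real.pi * c : ℝ) : ℂ) * Complex.I) := by
    intro c
    unfold ez
    congr 1
    push_cast
    ring
  rw [h1 a, h1 b]
  refine h.trans (le_of_eq ?_)
  rw [← mul_sub, abs_mul, abs_of_pos (by positivity)]

private theorem shf_ez1 (a : ℝ) : ‖ez a‖ = 1 := by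
  have h1 : ez a = Complex.exp (((2 * Real.pi * a : ℝ) : ℂ) * Complex.I) := by
    unfold ez
    congr 1
    push_cast
    ring
  rw [h1, Complex.norm_exp_ofReal_mul_I]

private theorem shf_ez2 (a b : ℝ) : ez a * ez b = ez (a + b) := by
  unfold ez
  rw [← Complex.exp_add]
  congr 1
  push_cast
  ring

private theorem shf_geo (k : ℕ) (u : ℝ) (hu : 0 ≤ u) :
    |1 / (1 + u) - (1 + ∑ j ∈ range k, (-u) ^ (j + 1))| ≤ u ^ (k + 1) := by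
  have h1 : (1 : ℝ) + u ≠ 0 := by linarith
  have h3 : (-u) ≠ 1 := by linarith
  have h0 : 1 + ∑ j ∈ range k, (-u) ^ (j + 1) = ∑ j ∈ range (k + 1), (-u) ^ j := by
    rw [Finset.sum_range_succ', pow_zero, add_comm]
  have h4 : (-u) - 1 ≠ 0 := by linarith
  have h5 : 1 / (1 + u) - ((-u) ^ (k + 1) - 1) / (-u - 1) = (-u) ^ (k + 1) / (1 + u) := by
    rw [div_sub_div _ _ h1 h4, div_eq_div_iff (mul_ne_zero h1 h4) h1]
    ring
  rw [h0, geom_sum_eq h3, h5, abs_div, abs_pow, abs_neg, abs_of_nonneg hu,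
    abs_of_pos (by linarith : (0 : ℝ) < 1 + u)]
  exact div_le_self (pow_nonneg hu _) (by linarith)

private theorem shf_term (Y : ℝ) (hY : 0 ≤ Y) (N A k m x y : ℕ)
    (hN0 : 0 < N) (hm : N < m) (hx : x ≤ A) (hy : y ≤ A) :
    ‖ez (Y / ((m + x * y : ℕ) : ℝ)) - ez (Y / (m : ℝ)) *
      ez (∑ j : Fin k, aY k Y m j * ((x : ℝ) ^ ((j : ℕ) + 1) * (y : ℝ) ^ ((j : ℕ) + 1)))‖ ≤
      2 * Real.pi * (Y / N) * ((A : ℝ) ^ 2 / N) ^ (k + 1) := by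
  have hN : (0 : ℝ) < N := by exact_mod_cast hN0
  have hmN : (N : ℝ) ≤ m := by exact_mod_cast hm.le
  have hm0 : (0 : ℝ) < (m : ℝ) := by linarith
  set z : ℝ := (x : ℝ) * y / (m : ℝ) with hz
  have hz0 : 0 ≤ z := by positivity
  have hxy : (x : ℝ) * y ≤ (A : ℝ) ^ 2 := by
    have h1 : (x : ℝ) ≤ A := by exact_mod_cast hx
    have h2 : (y : ℝ) ≤ A := by exact_mod_cast hy
    rw [sq]
    exact mul_le_mul h1 h2 (Nat.cast_nonneg _) (Nat.cast_nonneg _)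
  have hzN : z ≤ (A : ℝ) ^ 2 / N := by
    rw [hz, div_le_div_iff₀ hm0 hN]
    have h1 : (0 : ℝ) ≤ (A : ℝ) ^ 2 := by positivity
    calc (x : ℝ) * y * N ≤ (A : ℝ) ^ 2 * N := mul_le_mul_of_nonneg_right hxy hN.le
      _ ≤ (A : ℝ) ^ 2 * (m : ℝ) := mul_le_mul_of_nonneg_left hmN h1
  have hdiv : Y / ((m + x * y : ℕ) : ℝ) = Y / m * (1 / (1 + z)) := by
    rw [hz]
    push_cast
    have h1 : (m : ℝ) + (x : ℝ) * y ≠ 0 := by positivity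
    have h2 : (1 : ℝ) + (x : ℝ) * y / m ≠ 0 := by positivity
    field_simp
  have hsum : (∑ j : Fin k, aY k Y m j * ((x : ℝ) ^ ((j : ℕ) + 1) * (y : ℝ) ^ ((j : ℕ) + 1))) =
      Y / m * ∑ j ∈ range k, (-z) ^ (j + 1) := by
    rw [← Fin.sum_univ_eq_sum_range (fun j => (-z : ℝ) ^ (j + 1)) k, Finset.mul_sum]
    refine Finset.sum_congr rfl (fun j _ => ?_)
    unfold aY
    have e1 : (-z) ^ ((j : ℕ) + 1) = (-1) ^ ((j : ℕ) + 1) * (((x : ℝ) * y) ^ ((j : ℕ) + 1) /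
        (m : ℝ) ^ ((j : ℕ) + 1)) := by
      rw [hz, ← div_pow, ← mul_pow]
      congr 1
      ring
    rw [e1, mul_pow, pow_succ (m : ℝ) ((j : ℕ) + 1)]
    have hmp : (m : ℝ) ^ ((j : ℕ) + 1) ≠ 0 := pow_ne_zero _ hm0.ne'
    field_simp
  rw [shf_ez2, hsum, hdiv]
  refine (shf_ez _ _).trans ?_
  have h2 : Y / m * (1 / (1 + z)) - (Y / m + Y / m * ∑ j ∈ range k, (-z) ^ (j + 1)) =
      Y / m * (1 / (1 + z) - (1 + ∑ j ∈ range k, (-z) ^ (j + 1))) := by ring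
  rw [h2, abs_mul, abs_of_nonneg (by positivity : (0 : ℝ) ≤ Y / m)]
  have h3 : |1 / (1 + z) - (1 + ∑ j ∈ range k, (-z) ^ (j + 1))| ≤ ((A : ℝ) ^ 2 / N) ^ (k + 1) :=
    (shf_geo k z hz0).trans (pow_le_pow_left₀ hz0 hzN _)
  have h4 : Y / m ≤ Y / N := div_le_div_of_nonneg_left hY hN hmN
  have h5 : Y / m * |1 / (1 + z) - (1 + ∑ j ∈ range k, (-z) ^ (j + 1))| ≤
      Y / N * ((A : ℝ) ^ 2 / N) ^ (k + 1) :=
    mul_le_mul h4 h3 (abs_nonneg _) (by positivity)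
  calc 2 * Real.pi * (Y / m * |1 / (1 + z) - (1 + ∑ j ∈ range k, (-z) ^ (j + 1))|) ≤
      2 * Real.pi * (Y / N * ((A : ℝ) ^ 2 / N) ^ (k + 1)) :=
        mul_le_mul_of_nonneg_left h5 (by positivity)
    _ = 2 * Real.pi * (Y / N) * ((A : ℝ) ^ 2 / N) ^ (k + 1) := by ring

theorem shiftY (Y : ℝ) (hY : 0 ≤ Y) (N N' A k : ℕ) (hA : 1 ≤ A) (h2 : 2 * A ^ 2 ≤ N) (hN' : N' ≤ 2 * N) :
    ‖∑ m ∈ Ioc N N', ez (Y / (m : ℝ))‖ ≤
      (1 / (A : ℝ) ^ 2) * ∑ m ∈ Ioc N N', ‖W k A (aY k Y m)‖ + 2 * (A : ℝ) ^ 2 +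
        2 * Real.pi * Y * ((A : ℝ) ^ 2 / N) ^ (k + 1) := by
  have hA0 : (0 : ℝ) < A := by exact_mod_cast hA
  have hA2 : (0 : ℝ) < (A : ℝ) ^ 2 := by positivity
  have hN0 : 0 < N := by
    have : 0 < A ^ 2 := pow_pos hA 2
    omega
  have hNr : (0 : ℝ) < N := by exact_mod_cast hN0
  set R : ℝ := 2 * Real.pi * (Y / N) * ((A : ℝ) ^ 2 / N) ^ (k + 1) with hRdef
  have hR : (0 : ℝ) ≤ R := by positivity
  have hNR : 2 * Real.pi * Y * ((A : ℝ) ^ 2 / N) ^ (k + 1) = N * R := by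
    rw [hRdef]
    have : (N : ℝ) ≠ 0 := hNr.ne'
    have h1 : Y = N * (Y / N) := by field_simp
    calc 2 * Real.pi * Y * ((A : ℝ) ^ 2 / N) ^ (k + 1) =
        2 * Real.pi * (N * (Y / N)) * ((A : ℝ) ^ 2 / N) ^ (k + 1) := by rw [← h1]
      _ = _ := by ring
  rw [hNR]
  have hWs : (0 : ℝ) ≤ (1 / (A : ℝ) ^ 2) * ∑ m ∈ Ioc N N', ‖W k A (aY k Y m)‖ :=
    mul_nonneg (by positivity) (Finset.sum_nonneg (fun _ _ => norm_nonneg _))
  rcases Nat.lt_or_ge N' N with hlt | hge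
  · rw [Finset.Ioc_eq_empty (by omega), Finset.sum_empty, norm_zero]
    rw [Finset.Ioc_eq_empty (by omega)] at hWs
    positivity
  set g : ℕ → ℂ := fun m => ez (Y / (m : ℝ)) with hg
  have hg1 : ∀ m, ‖g m‖ = 1 := fun m => shf_ez1 _
  set S : ℂ := ∑ m ∈ Ioc N N', g m with hS
  -- averaging
  have h1 : ‖((A : ℝ) ^ 2 : ℝ) * S - ∑ x ∈ Icc 1 A, ∑ y ∈ Icc 1 A, ∑ m ∈ Ioc N N', g (m + x * y)‖
      ≤ (A : ℝ) ^ 2 * (2 * (A : ℝ) ^ 2) := by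
    have e1 : (((A : ℝ) ^ 2 : ℝ) : ℂ) * S = ∑ x ∈ Icc 1 A, ∑ y ∈ Icc 1 A, S := by
      rw [Finset.sum_const, Finset.sum_const, Nat.card_Icc, Nat.add_sub_cancel, nsmul_eq_mul,
        nsmul_eq_mul]
      push_cast
      ring
    rw [e1, ← Finset.sum_sub_distrib]
    have e2 : ∀ x ∈ Icc 1 A, ‖∑ y ∈ Icc 1 A, S - ∑ y ∈ Icc 1 A, ∑ m ∈ Ioc N N', g (m + x * y)‖ ≤
        A * (2 * (A : ℝ) ^ 2) := by
      intro x hx
      rw [← Finset.sum_sub_distrib]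
      refine (norm_sum_le _ _).trans ?_
      have e3 : ∀ y ∈ Icc 1 A, ‖S - ∑ m ∈ Ioc N N', g (m + x * y)‖ ≤ 2 * (A : ℝ) ^ 2 := by
        intro y hy
        refine (shift_sum g hg1 N N' (x * y) hge).trans ?_
        have h3 := (Finset.mem_Icc.1 hx).2
        have h4 := (Finset.mem_Icc.1 hy).2
        have h5 : x * y ≤ A ^ 2 := by rw [sq]; exact Nat.mul_le_mul h3 h4
        have h6 : ((x * y : ℕ) : ℝ) ≤ (A : ℝ) ^ 2 := by exact_mod_cast h5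
        linarith
      refine (Finset.sum_le_sum e3).trans ?_
      rw [Finset.sum_const, Nat.card_Icc, Nat.add_sub_cancel, nsmul_eq_mul]
    refine (norm_sum_le _ _).trans ((Finset.sum_le_sum e2).trans ?_)
    rw [Finset.sum_const, Nat.card_Icc, Nat.add_sub_cancel, nsmul_eq_mul]
    apply le_of_eq
    ring
  -- exchange
  have h2 : ∑ x ∈ Icc 1 A, ∑ y ∈ Icc 1 A, ∑ m ∈ Ioc N N', g (m + x * y) =
      ∑ m ∈ Ioc N N', ∑ x ∈ Icc 1 A, ∑ y ∈ Icc 1 A, g (m + x * y) := by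
    rw [Finset.sum_congr rfl (fun x _ => Finset.sum_comm)]
    exact Finset.sum_comm
  -- Taylor
  have h3 : ∀ m ∈ Ioc N N', ‖∑ x ∈ Icc 1 A, ∑ y ∈ Icc 1 A, g (m + x * y)‖ ≤
      ‖W k A (aY k Y m)‖ + (A : ℝ) ^ 2 * R := by
    intro m hm
    have hm' := (Finset.mem_Ioc.1 hm).1
    have e1 : ‖∑ x ∈ Icc 1 A, ∑ y ∈ Icc 1 A, g (m + x * y) - g m * W k A (aY k Y m)‖ ≤
        (A : ℝ) ^ 2 * R := by
      unfold W
      rw [Finset.mul_sum, ← Finset.sum_sub_distrib]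
      have e2 : ∀ x ∈ Icc 1 A, ‖∑ y ∈ Icc 1 A, g (m + x * y) - g m * ∑ y ∈ Icc 1 A,
          ez (∑ j : Fin k, aY k Y m j *
            ((x : ℝ) ^ ((j : ℕ) + 1) * (y : ℝ) ^ ((j : ℕ) + 1)))‖ ≤
          A * R := by
        intro x hx
        rw [Finset.mul_sum, ← Finset.sum_sub_distrib]
        refine (norm_sum_le _ _).trans ?_
        have e3 : ∀ y ∈ Icc 1 A, ‖g (m + x * y) - g m * ez (∑ j : Fin k, aY k Y m j *
            ((x : ℝ) ^ ((j : ℕ) + 1) * (y : ℝ) ^ ((j : ℕ) + 1)))‖ ≤ R := by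
          intro y hy
          exact shf_term Y hY N A k m x y hN0 hm' (Finset.mem_Icc.1 hx).2
            (Finset.mem_Icc.1 hy).2
        refine (Finset.sum_le_sum e3).trans ?_
        rw [Finset.sum_const, Nat.card_Icc, Nat.add_sub_cancel, nsmul_eq_mul]
      refine (norm_sum_le _ _).trans ((Finset.sum_le_sum e2).trans ?_)
      rw [Finset.sum_const, Nat.card_Icc, Nat.add_sub_cancel, nsmul_eq_mul]
      apply le_of_eq
      ring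
    have e4 : ‖g m * W k A (aY k Y m)‖ = ‖W k A (aY k Y m)‖ := by
      rw [norm_mul, hg1, one_mul]
    rw [← e4]
    have e5 := norm_le_norm_add_norm_sub' (∑ x ∈ Icc 1 A, ∑ y ∈ Icc 1 A, g (m + x * y))
      (g m * W k A (aY k Y m))
    linarith
  have h4 : ‖∑ m ∈ Ioc N N', ∑ x ∈ Icc 1 A, ∑ y ∈ Icc 1 A, g (m + x * y)‖ ≤
      ∑ m ∈ Ioc N N', ‖W k A (aY k Y m)‖ + N * ((A : ℝ) ^ 2 * R) := by
    refine (norm_sum_le _ _).trans ((Finset.sum_le_sum h3).trans ?_)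
    rw [Finset.sum_add_distrib, Finset.sum_const, Nat.card_Ioc, nsmul_eq_mul]
    have h5 : ((N' - N : ℕ) : ℝ) ≤ N := by
      have : N' - N ≤ N := by omega
      exact_mod_cast this
    have h6 : (0 : ℝ) ≤ (A : ℝ) ^ 2 * R := by positivity
    have := mul_le_mul_of_nonneg_right h5 h6
    linarith
  rw [h2] at h1
  have h5 : (A : ℝ) ^ 2 * ‖S‖ ≤ ∑ m ∈ Ioc N N', ‖W k A (aY k Y m)‖ +
      N * ((A : ℝ) ^ 2 * R) + (A : ℝ) ^ 2 * (2 * (A : ℝ) ^ 2) := by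
    have e1 : ‖(((A : ℝ) ^ 2 : ℝ) : ℂ) * S‖ = (A : ℝ) ^ 2 * ‖S‖ := by
      rw [norm_mul, Complex.norm_real, Real.norm_of_nonneg hA2.le]
    rw [← e1]
    have e2 := norm_le_norm_add_norm_sub' ((((A : ℝ) ^ 2 : ℝ) : ℂ) * S)
      (∑ m ∈ Ioc N N', ∑ x ∈ Icc 1 A, ∑ y ∈ Icc 1 A, g (m + x * y))
    linarith
  have h6 : ‖S‖ = (1 / (A : ℝ) ^ 2) * ((A : ℝ) ^ 2 * ‖S‖) := by
    field_simp
  rw [h6]
  refine (mul_le_mul_of_nonneg_left h5 (by positivity)).trans (le_of_eq ?_)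
  field_simp
  ring

end Pool.Agent.H1.BT
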