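import Pool.Agent.H1.BT.WBg
import Pool.Agent.H1.BT.Shf
import Pool.Agent.H24.AB.Defs

/-!
# [H1 BT FIN] The exponential sum `Σ e(Y/a)`

There are `c, C > 0` such that for all integers `A >= 1`, `A' <= 2A` and all real `Y`, `kap >= 0` with
`A^2 <= Y <= A^kap`:  `‖Σ_{A<a<=A'} e(Y/a)‖ <= exp(C kap^3) (1 + log A) A^(1 - c/kap^2)`.

PROOF. Let `C1, c1` be the constants of `wbg` and `c = min(c1/9, 1/3)`, `C = 27 C1 + 4`. The sum has at most `A` terms, so it is `<= A`.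
`A = 1`: the right side is `exp(C kap^3) >= 1`. Let `A >= 2`; then `kap >= 2` (`A^2 <= A^kap`). `A < 8`: `A^(-c/kap^2) >= 8^(-1/12) >= 1/2` and
`exp(C kap^3) >= exp(32)`, so the right side is `>= A`. Let `A >= 8`, `L = log A`, `k = ⌈3 log(2Y/A)/L⌉`. As `2Y/A >= 2A`, `3 log(2Y/A)/L > 3`, so `k >= 4`.
`k < 3 log(2Y/A)/L + 1 <= 3 (log 2/L + kap - 1) + 1 <= 3 kap - 1` (`log 2/L <= 1/3`), so `k <= 3 kap`.
For `m ∈ (A, 2A]` put `κ = log(2Y/m)/L`, so `A^κ = 2Y/m`; `κ <= log(2Y/A)/L <= k/3`, and `A^κ >= Y/A = (1/2)(2Y/A) > (1/2) A^((k-1)/3) >= A^((k-2)/3)` (`A^(1/3) >= 2`)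
`>= A^(k/6)` for `k >= 4`; and `κ >= k/6 >= 2/3 >= 1/2`. Coefficients: `|aY_j| = Y/m^(j+2) = A^κ/(2 m^(j+1))`, which is `<= A^κ/(2A^(j+1))` and
`>= A^κ/(2 (2A)^(j+1)) >= A^κ/(2πk(3A)^(j+1))`. So `wbg` bounds `‖W k B (aY k Y m)‖`, `B = ⌊A^(1/3)⌋`, and `shiftY` gives (`B^2/A <= A^(-1/3)`, `2B^2 <= 2A^(2/3) <= A`,
`2πY (B^2/A)^(k+1) <= π A A^(k/3) A^(-(k+1)/3) = π A^(2/3)`):
`‖Σ‖ <= A exp(C1 k^3)(1+L) A^(-c1/k^2) + (2+π) A^(2/3) <= A exp(27 C1 kap^3) (1+L) A^(-c/kap^2) + 6 A^(1 - 1/3)`, and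
`exp(27 C1 kap^3) + 6 <= exp((27 C1 + 4) kap^3)`.
-/

set_option autoImplicit false

namespace Pool.Agent.H1.BT

open Finset Pool.Agent.H43.ZS

theorem fin_ee (u : ℝ) : Pool.Agent.H24.AB.ee u = ez u := rfl

theorem fin_triv (A A' : ℕ) (hA' : A' ≤ 2 * A) (Y : ℝ) : ‖∑ a ∈ Ioc A A', ez (Y / (a : ℝ))‖ ≤ (A : ℝ) := by
  refine (norm_sum_le _ _).trans ?_
  simp only [ub_norm, Finset.sum_const, Nat.card_Ioc, nsmul_eq_mul, mul_one]
  have : A' - A ≤ A := by omega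
  exact_mod_cast this

theorem fin_main (C1 c1 : ℝ) (hC1 : 0 < C1) (hc1 : 0 < c1)
    (hw : ∀ (k N : ℕ) (κ : ℝ) (α : Fin k → ℝ), 2 ≤ k → 2 ≤ N →
      1 / 2 ≤ κ → (k : ℝ) / 6 ≤ κ → κ ≤ (k : ℝ) / 3 →
      (∀ j : Fin k, (N : ℝ) ^ κ / (2 * Real.pi * k * (3 * (N : ℝ)) ^ ((j : ℕ) + 1)) ≤ |α j|) →
      (∀ j : Fin k, |α j| ≤ (N : ℝ) ^ κ / (2 * (N : ℝ) ^ ((j : ℕ) + 1))) →
      ‖W k ⌊(N : ℝ) ^ ((1 : ℝ) / 3)⌋₊ α‖ ≤ (⌊(N : ℝ) ^ ((1 : ℝ) / 3)⌋₊ : ℝ) ^ 2 *
        Real.exp (C1 * (k : ℝ) ^ 3) * (1 + Real.log N) * (N : ℝ) ^ (-(c1 / (k : ℝ) ^ 2)))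
    (A A' : ℕ) (Y kap : ℝ) (hA : 8 ≤ A) (hA' : A' ≤ 2 * A) (hY1 : (A : ℝ) ^ 2 ≤ Y) (hY2 : Y ≤ (A : ℝ) ^ kap) :
    ‖∑ a ∈ Ioc A A', ez (Y / (a : ℝ))‖ ≤
      A * (Real.exp (27 * C1 * kap ^ 3) * (1 + Real.log A) * Real.exp (-(c1 / (9 * kap ^ 2)) * Real.log A)) +
        6 * (A * Real.exp (-Real.log A / 3)) := by
  have hA8 : (8 : ℝ) ≤ A := by exact_mod_cast hA
  have hApos : (0 : ℝ) < A := by linarith
  have hYpos : 0 < Y := lt_of_lt_of_le (by positivity) hY1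
  have hpi := Real.pi_gt_three
  have hpi4 := Real.pi_le_four
  set L := Real.log A with hL
  have hAL : (A : ℝ) = Real.exp L := (Real.exp_log hApos).symm
  have hl2 : 0 < Real.log 2 := Real.log_pos (by norm_num)
  have hL2 : 3 * Real.log 2 ≤ L := by
    have h1 := Real.log_le_log (by norm_num) hA8
    rw [show (8 : ℝ) = 2 ^ 3 by norm_num, Real.log_pow] at h1
    exact_mod_cast h1
  have hLpos : 0 < L := by linarith
  have hrp : ∀ a : ℝ, (A : ℝ) ^ a = Real.exp (a * L) := by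
    intro a
    rw [Real.rpow_def_of_pos hApos]
    congr 1; ring
  set P := Real.log (2 * Y / A) with hP
  have h2YA : 0 < 2 * Y / A := by positivity
  have hPexp : Real.exp P = 2 * Y / A := Real.exp_log h2YA
  have hPlow : Real.log 2 + L ≤ P := by
    rw [hP, hL, ← Real.log_mul (by norm_num) hApos.ne']
    apply Real.log_le_log (by positivity)
    rw [le_div_iff₀ hApos]
    nlinarith
  have hPup : P ≤ Real.log 2 + kap * L - L := by
    have h1 : 2 * Y / A ≤ Real.exp (Real.log 2 + kap * L - L) := by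
      rw [Real.exp_sub, Real.exp_add, Real.exp_log (by norm_num), ← hAL, ← hrp]
      gcongr
    rw [hP]
    exact (Real.log_le_iff_le_exp h2YA).2 h1
  set k := ⌈3 * P / L⌉₊ with hk
  have hk1 : 3 * P / L ≤ k := Nat.le_ceil _
  have hPpos : 0 < P := by linarith
  have hk2 : (k : ℝ) < 3 * P / L + 1 := Nat.ceil_lt_add_one (by positivity)
  have hk1' : 3 * P ≤ k * L := by rwa [div_le_iff₀ hLpos] at hk1
  have hk2' : (k : ℝ) * L < 3 * P + L := by
    have h1 : (k : ℝ) * L < (3 * P / L + 1) * L := mul_lt_mul_of_pos_right hk2 hLpos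
    have h2 : (3 * P / L + 1) * L = 3 * P + L := by field_simp
    linarith
  have hk4 : 4 ≤ k := by
    have h1 : (3 : ℝ) < k := by
      have : 3 * L < k * L := by linarith
      exact lt_of_mul_lt_mul_right this hLpos.le
    have : 3 < k := by exact_mod_cast h1
    omega
  have hk4' : (4 : ℝ) ≤ k := by exact_mod_cast hk4
  have hkkap : (k : ℝ) ≤ 3 * kap := by
    have : (k : ℝ) * L ≤ 3 * kap * L := by linarith
    exact le_of_mul_le_mul_right this hLpos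
  have hkpos : (0 : ℝ) < k := by linarith
  have hkappos : 0 < kap := by linarith
  set B := ⌊(A : ℝ) ^ ((1 : ℝ) / 3)⌋₊ with hB
  have hA13 : 2 ≤ (A : ℝ) ^ ((1 : ℝ) / 3) := by
    rw [hrp, ← Real.exp_log (show (0 : ℝ) < 2 by norm_num)]
    apply Real.exp_le_exp.2
    linarith
  have hB1 : 1 ≤ B := by
    rw [hB]; exact Nat.le_floor (by push_cast; linarith)
  have hBle : (B : ℝ) ≤ (A : ℝ) ^ ((1 : ℝ) / 3) := Nat.floor_le (by linarith)
  have hBpos : (0 : ℝ) < B := by exact_mod_cast hB1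
  have hB2le : (B : ℝ) ^ 2 ≤ A * Real.exp (-L / 3) := by
    calc (B : ℝ) ^ 2 ≤ ((A : ℝ) ^ ((1 : ℝ) / 3)) ^ 2 := by gcongr
      _ = A * Real.exp (-L / 3) := by
          rw [hrp, ← Real.exp_nat_mul]
          conv_rhs => rw [hAL]
          rw [← Real.exp_add]
          congr 1; push_cast; ring
  have hexp2 : Real.exp (-L / 3) * 2 ≤ 1 := by
    have h2 : Real.exp (-L / 3) * (A : ℝ) ^ ((1 : ℝ) / 3) = 1 := by
      rw [hrp, ← Real.exp_add, show -L / 3 + 1 / 3 * L = 0 by ring, Real.exp_zero]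
    calc Real.exp (-L / 3) * 2 ≤ Real.exp (-L / 3) * (A : ℝ) ^ ((1 : ℝ) / 3) := by gcongr
      _ = 1 := h2
  have h2B : 2 * B ^ 2 ≤ A := by
    have : (2 : ℝ) * (B : ℝ) ^ 2 ≤ A := by nlinarith
    exact_mod_cast this
  have hsh := shiftY Y hYpos.le A A' B k hB1 h2B hA'
  refine le_trans hsh ?_
  set D := Real.exp (C1 * (k : ℝ) ^ 3) * (1 + L) * Real.exp (-(c1 / (k : ℝ) ^ 2) * L) with hD
  have hD0 : 0 ≤ D := by rw [hD]; positivity
  have hWle : ∀ m ∈ Ioc A A', ‖W k B (aY k Y m)‖ ≤ (B : ℝ) ^ 2 * D := by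
    intro m hm
    rw [mem_Ioc] at hm
    have hm1 : (A : ℝ) ≤ m := by exact_mod_cast hm.1.le
    have hm2 : (m : ℝ) ≤ 2 * A := by
      have : m ≤ 2 * A := hm.2.trans hA'
      exact_mod_cast this
    have hmpos : (0 : ℝ) < m := by linarith
    have h2Ym : 0 < 2 * Y / m := by positivity
    set Q := Real.log (2 * Y / m) with hQ
    have hQ1 : Q ≤ P := by
      rw [hQ, hP]
      apply Real.log_le_log h2Ym
      gcongr
    have hQ2 : P - Real.log 2 ≤ Q := by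
      rw [hQ, hP, ← Real.log_div h2YA.ne' (by norm_num)]
      apply Real.log_le_log (by positivity)
      rw [div_div]
      gcongr
      linarith
    have hκ : (A : ℝ) ^ (Q / L) = 2 * Y / m := by
      rw [hrp, div_mul_cancel₀ _ hLpos.ne', hQ, Real.exp_log h2Ym]
    have hκ1 : (k : ℝ) / 6 ≤ Q / L := by
      rw [le_div_iff₀ hLpos]
      have h4L : 4 * L ≤ k * L := mul_le_mul_of_nonneg_right hk4' hLpos.le
      linarith
    have hκ2 : Q / L ≤ (k : ℝ) / 3 := by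
      rw [div_le_iff₀ hLpos]
      linarith
    have hκ0 : 1 / 2 ≤ Q / L := by linarith
    have habs : ∀ j : Fin k, |aY k Y m j| = Y / (m : ℝ) ^ ((j : ℕ) + 2) := by
      intro j
      unfold aY
      rw [abs_mul, abs_pow, abs_neg, abs_one, one_pow, one_mul, abs_of_pos (by positivity)]
    have hlow : ∀ j : Fin k, (A : ℝ) ^ (Q / L) / (2 * Real.pi * k * (3 * (A : ℝ)) ^ ((j : ℕ) + 1)) ≤
        |aY k Y m j| := by
      intro j
      rw [habs, hκ, div_div, div_le_div_iff₀ (by positivity) (by positivity)]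
      have h1 : (m : ℝ) ^ ((j : ℕ) + 1) ≤ (3 * (A : ℝ)) ^ ((j : ℕ) + 1) := by
        apply pow_le_pow_left₀ hmpos.le; linarith
      have h2 : (1 : ℝ) ≤ Real.pi * k := by nlinarith
      have h3 : (m : ℝ) ^ ((j : ℕ) + 1) ≤ Real.pi * k * (3 * (A : ℝ)) ^ ((j : ℕ) + 1) := by
        have : (0 : ℝ) ≤ (3 * (A : ℝ)) ^ ((j : ℕ) + 1) := by positivity
        nlinarith
      calc 2 * Y * (m : ℝ) ^ ((j : ℕ) + 2) = 2 * Y * m * (m : ℝ) ^ ((j : ℕ) + 1) := by ring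
        _ ≤ 2 * Y * m * (Real.pi * k * (3 * (A : ℝ)) ^ ((j : ℕ) + 1)) := by gcongr
        _ = _ := by ring
    have hup : ∀ j : Fin k, |aY k Y m j| ≤ (A : ℝ) ^ (Q / L) / (2 * (A : ℝ) ^ ((j : ℕ) + 1)) := by
      intro j
      rw [habs, hκ, div_div, div_le_div_iff₀ (by positivity) (by positivity)]
      have h1 : (A : ℝ) ^ ((j : ℕ) + 1) ≤ (m : ℝ) ^ ((j : ℕ) + 1) := pow_le_pow_left₀ hApos.le hm1 _
      calc Y * (m * (2 * (A : ℝ) ^ ((j : ℕ) + 1))) ≤ Y * (m * (2 * (m : ℝ) ^ ((j : ℕ) + 1))) := by gcongr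
        _ = _ := by ring
    have h := hw k A (Q / L) (aY k Y m) (by omega) (by omega) hκ0 hκ1 hκ2 hlow hup
    rw [← hB, hrp] at h
    refine h.trans (le_of_eq ?_)
    rw [hD]
    ring
  have hcard : ((Ioc A A').card : ℝ) ≤ A := by
    rw [Nat.card_Ioc]
    have : A' - A ≤ A := by omega
    exact_mod_cast this
  have hsumW : (1 / (B : ℝ) ^ 2) * ∑ m ∈ Ioc A A', ‖W k B (aY k Y m)‖ ≤ A * D := by
    have h1 := Finset.sum_le_sum hWle
    rw [Finset.sum_const, nsmul_eq_mul] at h1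
    calc (1 / (B : ℝ) ^ 2) * ∑ m ∈ Ioc A A', ‖W k B (aY k Y m)‖
        ≤ (1 / (B : ℝ) ^ 2) * (((Ioc A A').card : ℝ) * ((B : ℝ) ^ 2 * D)) := by gcongr
      _ = ((Ioc A A').card : ℝ) * D := by
          have hA2 : (B : ℝ) ^ 2 ≠ 0 := by positivity
          generalize ((Ioc A A').card : ℝ) = w
          generalize D = b
          field_simp
      _ ≤ A * D := by gcongr
  have hDle : D ≤ Real.exp (27 * C1 * kap ^ 3) * (1 + L) * Real.exp (-(c1 / (9 * kap ^ 2)) * L) := by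
    rw [hD]
    have e1 : C1 * (k : ℝ) ^ 3 ≤ 27 * C1 * kap ^ 3 := by
      have : (k : ℝ) ^ 3 ≤ (3 * kap) ^ 3 := by gcongr
      calc C1 * (k : ℝ) ^ 3 ≤ C1 * (3 * kap) ^ 3 := by gcongr
        _ = _ := by ring
    have e2 : c1 / (9 * kap ^ 2) ≤ c1 / (k : ℝ) ^ 2 := by
      have : (k : ℝ) ^ 2 ≤ (3 * kap) ^ 2 := by gcongr
      apply div_le_div_of_nonneg_left hc1.le (by positivity)
      linarith
    have e3 : -(c1 / (k : ℝ) ^ 2) * L ≤ -(c1 / (9 * kap ^ 2)) * L := by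
      apply mul_le_mul_of_nonneg_right _ hLpos.le
      linarith
    gcongr
  have hthird : 2 * Real.pi * Y * ((B : ℝ) ^ 2 / A) ^ (k + 1) ≤ 4 * (A * Real.exp (-L / 3)) := by
    have h1 : (B : ℝ) ^ 2 / A ≤ Real.exp (-L / 3) := by
      rw [div_le_iff₀ hApos]
      linarith
    have h2 : ((B : ℝ) ^ 2 / A) ^ (k + 1) ≤ (Real.exp (-L / 3)) ^ (k + 1) := by
      gcongr
    have h3 : Real.exp P * (Real.exp (-L / 3)) ^ (k + 1) ≤ Real.exp (-L / 3) := by
      rw [← Real.exp_nat_mul, ← Real.exp_add]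
      apply Real.exp_le_exp.2
      push_cast
      linarith
    have h4 : 2 * Y = A * Real.exp P := by
      rw [hPexp]; field_simp
    calc 2 * Real.pi * Y * ((B : ℝ) ^ 2 / A) ^ (k + 1) = Real.pi * (2 * Y) * ((B : ℝ) ^ 2 / A) ^ (k + 1) := by ring
      _ ≤ 4 * (2 * Y) * (Real.exp (-L / 3)) ^ (k + 1) := by gcongr
      _ = 4 * (A * (Real.exp P * (Real.exp (-L / 3)) ^ (k + 1))) := by rw [h4]; ring
      _ ≤ 4 * (A * Real.exp (-L / 3)) := by gcongr
  calc (1 / (B : ℝ) ^ 2) * ∑ m ∈ Ioc A A', ‖W k B (aY k Y m)‖ + 2 * (B : ℝ) ^ 2 +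
        2 * Real.pi * Y * ((B : ℝ) ^ 2 / A) ^ (k + 1)
      ≤ A * D + 2 * (A * Real.exp (-L / 3)) + 4 * (A * Real.exp (-L / 3)) := by
        gcongr
    _ = A * D + 6 * (A * Real.exp (-L / 3)) := by ring
    _ ≤ _ := by gcongr

theorem expsum : ∃ c C : ℝ, 0 < c ∧ 0 < C ∧ ∀ (A A' : ℕ) (Y kap : ℝ), 1 ≤ A → A' ≤ 2 * A → 0 ≤ kap →
    (A : ℝ) ^ 2 ≤ Y → Y ≤ (A : ℝ) ^ kap →
    ‖∑ a ∈ Ioc A A', Pool.Agent.H24.AB.ee (Y / (a : ℝ))‖ ≤
      Real.exp (C * kap ^ 3) * (1 + Real.log A) * (A : ℝ) ^ (1 - c / kap ^ 2) := by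
  obtain ⟨C1, c1, hC1, hc1, hw⟩ := wbg
  refine ⟨min (c1 / 9) (1 / 3), 27 * C1 + 4, by positivity, by positivity, ?_⟩
  intro A A' Y kap hA hA' hk0 hY1 hY2
  set c := min (c1 / 9) (1 / 3 : ℝ) with hc
  have hc1' : c ≤ c1 / 9 := min_le_left _ _
  have hc2' : c ≤ 1 / 3 := min_le_right _ _
  have hc0 : 0 < c := by rw [hc]; positivity
  simp only [fin_ee]
  have hA1 : (1 : ℝ) ≤ A := by exact_mod_cast hA
  have hApos : (0 : ℝ) < A := by linarith
  set L := Real.log A with hL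
  have hL0 : 0 ≤ L := Real.log_nonneg hA1
  have hAL : (A : ℝ) = Real.exp L := (Real.exp_log hApos).symm
  have hrp : ∀ a : ℝ, (A : ℝ) ^ a = Real.exp (a * L) := by
    intro a
    rw [Real.rpow_def_of_pos hApos]
    congr 1; ring
  rcases Nat.lt_or_ge A 8 with hA8 | hA8
  · -- small A
    refine (fin_triv A A' hA' Y).trans ?_
    rcases Nat.lt_or_ge A 2 with hA2 | hA2
    · have hA1' : A = 1 := by omega
      have hL1 : L = 0 := by rw [hL, hA1']; simp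
      have hAone : (A : ℝ) = 1 := by rw [hA1']; simp
      rw [hL1, hAone, Real.one_rpow, mul_one, add_zero, mul_one]
      exact Real.one_le_exp (by positivity)
    · have hA2' : (2 : ℝ) ≤ A := by exact_mod_cast hA2
      have hLpos : 0 < L := Real.log_pos (by linarith)
      have hkap2 : 2 ≤ kap := by
        have h1 := hY1.trans hY2
        rw [hrp, hAL, ← Real.exp_nat_mul] at h1
        have h2 := Real.exp_le_exp.1 h1
        push_cast at h2
        exact le_of_mul_le_mul_right h2 hLpos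
      have hL8 : L ≤ 3 := by
        have h1 : (A : ℝ) ≤ 8 := by exact_mod_cast hA8.le
        have h2 : L ≤ Real.log 8 := Real.log_le_log hApos h1
        have h3 : Real.log 8 = 3 * Real.log 2 := by
          rw [show (8 : ℝ) = 2 ^ 3 by norm_num, Real.log_pow]; push_cast; ring
        have := Real.log_two_lt_d9
        linarith
      rw [hrp]
      have hk3 : (8 : ℝ) ≤ kap ^ 3 := by
        calc (8 : ℝ) = 2 ^ 3 := by norm_num
          _ ≤ kap ^ 3 := pow_le_pow_left₀ (by norm_num) hkap2 3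
      have hk2 : (1 : ℝ) ≤ kap ^ 2 := by nlinarith
      have hcd : c / kap ^ 2 ≤ 1 := by
        rw [div_le_iff₀ (by positivity)]; linarith
      have e1 : L ≤ (27 * C1 + 4) * kap ^ 3 + (1 - c / kap ^ 2) * L := by
        have h1 : 0 ≤ 27 * C1 * kap ^ 3 := by positivity
        have h2 : c / kap ^ 2 * L ≤ 1 * L := mul_le_mul_of_nonneg_right hcd hL0
        nlinarith
      calc (A : ℝ) = Real.exp L := hAL
        _ ≤ Real.exp ((27 * C1 + 4) * kap ^ 3 + (1 - c / kap ^ 2) * L) := Real.exp_le_exp.2 e1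
        _ = Real.exp ((27 * C1 + 4) * kap ^ 3) * 1 * Real.exp ((1 - c / kap ^ 2) * L) := by
            rw [Real.exp_add]; ring
        _ ≤ _ := by
            gcongr
            linarith
  · have hA8' : (8 : ℝ) ≤ A := by exact_mod_cast hA8
    have hLpos : 0 < L := Real.log_pos (by linarith)
    have hkap2 : 2 ≤ kap := by
      have h1 := hY1.trans hY2
      rw [hrp, hAL, ← Real.exp_nat_mul] at h1
      have h2 := Real.exp_le_exp.1 h1
      push_cast at h2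
      exact le_of_mul_le_mul_right h2 hLpos
    have hk3 : (1 : ℝ) ≤ kap ^ 3 := one_le_pow₀ (by linarith)
    have hk2 : (1 : ℝ) ≤ kap ^ 2 := one_le_pow₀ (by linarith)
    refine (fin_main C1 c1 hC1 hc1 hw A A' Y kap hA8 hA' hY1 hY2).trans ?_
    rw [← hL, hrp]
    have e1 : Real.exp (-(c1 / (9 * kap ^ 2)) * L) ≤ Real.exp (-(c / kap ^ 2) * L) := by
      apply Real.exp_le_exp.2
      apply mul_le_mul_of_nonneg_right _ hL0
      have : c / kap ^ 2 ≤ c1 / 9 / kap ^ 2 := by gcongr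
      rw [div_div] at this
      linarith
    have e2 : Real.exp (-L / 3) ≤ Real.exp (-(c / kap ^ 2) * L) := by
      apply Real.exp_le_exp.2
      have h1 : c / kap ^ 2 ≤ 1 / 3 := by
        rw [div_le_iff₀ (by positivity)]
        nlinarith
      have h2 : c / kap ^ 2 * L ≤ 1 / 3 * L := mul_le_mul_of_nonneg_right h1 hL0
      linarith
    have e3 : Real.exp (27 * C1 * kap ^ 3) + 6 ≤ Real.exp ((27 * C1 + 4) * kap ^ 3) := by
      have h1 : (1 : ℝ) ≤ Real.exp (27 * C1 * kap ^ 3) := Real.one_le_exp (by positivity)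
      have h2 : (7 : ℝ) ≤ Real.exp (4 * kap ^ 3) := by
        have h3 : 4 * kap ^ 3 + 1 ≤ Real.exp (4 * kap ^ 3) := Real.add_one_le_exp _
        have h4 : (8 : ℝ) ≤ kap ^ 3 := by
          calc (8 : ℝ) = 2 ^ 3 := by norm_num
            _ ≤ kap ^ 3 := pow_le_pow_left₀ (by norm_num) hkap2 3
        linarith
      have h5 : Real.exp ((27 * C1 + 4) * kap ^ 3) = Real.exp (27 * C1 * kap ^ 3) * Real.exp (4 * kap ^ 3) := by
        rw [← Real.exp_add]; congr 1; ring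
      rw [h5]
      nlinarith
    have e4 : Real.exp ((1 - c / kap ^ 2) * L) = A * Real.exp (-(c / kap ^ 2) * L) := by
      conv_rhs => rw [hAL]
      rw [← Real.exp_add]; congr 1; ring
    rw [e4]
    have hE0 : 0 < Real.exp (-(c / kap ^ 2) * L) := Real.exp_pos _
    calc A * (Real.exp (27 * C1 * kap ^ 3) * (1 + L) * Real.exp (-(c1 / (9 * kap ^ 2)) * L)) +
          6 * (A * Real.exp (-L / 3))
        ≤ A * (Real.exp (27 * C1 * kap ^ 3) * (1 + L) * Real.exp (-(c / kap ^ 2) * L)) +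
          6 * (A * Real.exp (-(c / kap ^ 2) * L)) := by gcongr
      _ ≤ A * (Real.exp (27 * C1 * kap ^ 3) * (1 + L) * Real.exp (-(c / kap ^ 2) * L)) +
          6 * (A * Real.exp (-(c / kap ^ 2) * L)) * (1 + L) := by
          have : 0 ≤ 6 * (A * Real.exp (-(c / kap ^ 2) * L)) := by positivity
          nlinarith
      _ = (Real.exp (27 * C1 * kap ^ 3) + 6) * (1 + L) * (A * Real.exp (-(c / kap ^ 2) * L)) := by ring
      _ ≤ Real.exp ((27 * C1 + 4) * kap ^ 3) * (1 + L) * (A * Real.exp (-(c / kap ^ 2) * L)) := by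
          gcongr

end Pool.Agent.H1.BT
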