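import Pool.Agent.H1.BT.Defs
import Pool.Agent.H43.ZS.WB

/-!
# [H1 BT WBG] The bound for `W` with general coefficients

There are `C, c > 0` such that for all `k >= 2`, `N >= 2`, `κ` with `1/2 <= κ`, `k/6 <= κ <= k/3`, `t = N^κ`, and all `α` with
`t/(2πk(3N)^(j+1)) <= |α_j| <= t/(2 N^(j+1))` for all `j < k`, and `A = ⌊N^(1/3)⌋`:
`‖W k A α‖ <= A^2 exp(C k^3) (1 + log N) N^(-c/k^2)`.

PROOF. Copy the proof of `Pool.Agent.H43.ZS.wb` (file `Pool/Agent/H43/ZS/WB.lean`); it uses of the coefficients `al k t β m` only these two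
inequalities, and of the lower bound `(k-1)/3 < κ` only `κ >= k/6`. The lemmas `wb_card`, `wb_delta`, `wb_triv`, `wb_A`, `wb_const`,
`wb_root` can be cited; only `wb_fac` (here: `wbg_fac`) and `wb` (here: `wbg`) have to be copied with the following changes.
`wbg_fac`: with `n = j+1`, `θ = α j`, `L = log N`. In the case `6/5 κ <= n <= 12/5 κ`:
* `b1`: `|θ| <= t/(2N^n) <= exp(κL - nL) <= exp(-κL/5)`;
* `b1'`: `|θ| <= t/(2N^n) <= 1/2` since `t <= N^n` (`κ <= n`);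
* `b2`: unchanged;
* `b3`: `1/(|θ| V^2) <= 1/(|θ| A^(2n)) <= 2πk 3^n N^n/(t A^(2n))` and from there unchanged (`2πk 12^k exp(-κL/5)`).
`|θ| > 0` by the lower bound. The other case is `u_triv`, unchanged.
`wbg`: unchanged (`κ` is given; `hκ1 : k/6 <= κ` directly).
-/

set_option autoImplicit false

namespace Pool.Agent.H1.BT

open Finset Pool.Agent.H43.ZS

theorem wbg_fac (k N : ℕ) (t : ℝ) (α : Fin k → ℝ) (hN : 2 ≤ N) (κ : ℝ)
    (htκ : t = Real.exp (κ * Real.log N)) (h1 : 1 / 2 ≤ κ)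
    (hlo : ∀ j : Fin k, t / (2 * Real.pi * k * (3 * (N : ℝ)) ^ ((j : ℕ) + 1)) ≤ |α j|)
    (hhi : ∀ j : Fin k, |α j| ≤ t / (2 * (N : ℝ) ^ ((j : ℕ) + 1))) (s A : ℕ) (hs : 1 ≤ s) (hA : 1 ≤ A)
    (hA1 : Real.log A ≤ Real.log N / 3) (hA2 : Real.log N / 3 - Real.log 2 ≤ Real.log A)
    (j : Fin k) :
    U (α j) (s * A ^ ((j : ℕ) + 1)) ≤
      9 * (s : ℝ) ^ 2 * (3840 * Real.pi * k * 12 ^ k * (1 + s + k * Real.log N)) *
        (A : ℝ) ^ (2 * ((j : ℕ) + 1)) *
        (if (6 / 5 * κ ≤ ((j : ℕ) : ℝ) + 1 ∧ ((j : ℕ) : ℝ) + 1 ≤ 12 / 5 * κ) then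
          Real.exp (-(κ * Real.log N / 5)) else 1) := by
  have hN' : (2 : ℝ) ≤ N := by exact_mod_cast hN
  have hN0 : (0 : ℝ) < N := by linarith
  set L := Real.log N with hL
  have hL0 : 0 < L := Real.log_pos (by linarith)
  have hNL : (N : ℝ) = Real.exp L := (Real.exp_log hN0).symm
  have hs' : (1 : ℝ) ≤ s := by exact_mod_cast hs
  have hA' : (1 : ℝ) ≤ A := by exact_mod_cast hA
  have hk1 : 1 ≤ k := by have := j.2; omega
  have hk' : (1 : ℝ) ≤ k := by exact_mod_cast hk1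
  have hpi := Real.pi_gt_three
  have hpi4 := Real.pi_le_four
  set n : ℕ := (j : ℕ) + 1 with hn
  have hnk : n ≤ k := by have := j.2; omega
  have hn1 : 1 ≤ n := by omega
  have hn' : (1 : ℝ) ≤ n := by exact_mod_cast hn1
  have hnk' : (n : ℝ) ≤ k := by exact_mod_cast hnk
  have hjn : ((j : ℕ) : ℝ) + 1 = (n : ℝ) := by rw [hn]; push_cast; ring
  rw [hjn]
  have hV : 1 ≤ s * A ^ n := Nat.one_le_iff_ne_zero.2 (by positivity)
  have hVr : ((s * A ^ n : ℕ) : ℝ) = (s : ℝ) * (A : ℝ) ^ n := by push_cast; ring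
  have hV2 : ((s * A ^ n : ℕ) : ℝ) ^ 2 = (s : ℝ) ^ 2 * (A : ℝ) ^ (2 * n) := by
    rw [hVr, mul_pow, ← pow_mul, mul_comm n 2]
  have hB : (1 : ℝ) ≤ 3840 * Real.pi * k * 12 ^ k * (1 + s + k * L) := by
    have e1 : (1 : ℝ) ≤ 3840 * Real.pi := by linarith
    have e2 : (1 : ℝ) ≤ 12 ^ k := one_le_pow₀ (by norm_num)
    have e3 : (1 : ℝ) ≤ 1 + s + k * L := by
      have : 0 ≤ (k : ℝ) * L := by positivity
      linarith
    exact one_le_mul_of_one_le_of_one_le (one_le_mul_of_one_le_of_one_le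
      (one_le_mul_of_one_le_of_one_le e1 hk') e2) e3
  split_ifs with hK
  · obtain ⟨hK1, hK2⟩ := hK
    have hm1L : 6 / 5 * κ * L ≤ n * L := mul_le_mul_of_nonneg_right hK1 hL0.le
    have hm2L : n * L ≤ 12 / 5 * κ * L := mul_le_mul_of_nonneg_right hK2 hL0.le
    have hpn : (1 : ℝ) ≤ 2 * Real.pi * n :=
      one_le_mul_of_one_le_of_one_le (by linarith) hn'
    have hpk : (1 : ℝ) ≤ 2 * Real.pi * k :=
      one_le_mul_of_one_le_of_one_le (by linarith) hk'
    have hκL : 0 < κ * L := by positivity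
    have htp : 0 < t := by rw [htκ]; exact Real.exp_pos _
    have hlo' := hlo j
    have hhi' := hhi j
    rw [← hn] at hlo' hhi'
    set θ := α j with hθdef
    have hNn0 : 0 < (N : ℝ) ^ n := by positivity
    have hθpos : 0 < |θ| := by
      refine lt_of_lt_of_le ?_ hlo'
      have := Real.pi_pos
      positivity
    have hNn : (N : ℝ) ^ n = Real.exp (n * L) := by
      rw [hNL, ← Real.exp_nat_mul]
    -- first bound
    have b1 : |θ| ≤ Real.exp (-(κ * L / 5)) := by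
      refine hhi'.trans ?_
      calc t / (2 * (N : ℝ) ^ n)
          ≤ t / Real.exp (n * L) := by
            rw [← hNn]
            exact div_le_div_of_nonneg_left htp.le hNn0 (by linarith)
        _ = Real.exp (κ * L - n * L) := by rw [htκ, Real.exp_sub]
        _ ≤ _ := by
          apply Real.exp_le_exp.2
          linarith
    have b1' : |θ| ≤ 1 / 2 := by
      have e1 : Real.exp (κ * L) ≤ (N : ℝ) ^ n := by
        rw [hNn]
        apply Real.exp_le_exp.2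
        linarith
      refine hhi'.trans ?_
      rw [div_le_iff₀ (by positivity)]
      have e2 : t ≤ (N : ℝ) ^ n := by rw [htκ]; exact e1
      linarith
    -- the length
    have hAe : (A : ℝ) = Real.exp (Real.log A) := (Real.exp_log (by linarith)).symm
    have hAlow : Real.exp (n * L / 3) ≤ 2 ^ n * (A : ℝ) ^ n := by
      have e1 : Real.exp (L / 3) ≤ 2 * A := by
        rw [← Real.exp_log (show (0 : ℝ) < 2 * A by linarith)]
        apply Real.exp_le_exp.2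
        rw [Real.log_mul (by norm_num) (by linarith)]
        linarith
      have e2 := pow_le_pow_left₀ (Real.exp_pos _).le e1 n
      rw [← Real.exp_nat_mul, mul_pow] at e2
      refine le_trans (le_of_eq ?_) e2
      congr 1; ring
    have h2n : (2 : ℝ) ^ n ≤ 2 ^ k := pow_le_pow_right₀ (by norm_num) hnk
    have h12n : (12 : ℝ) ^ n ≤ 12 ^ k := pow_le_pow_right₀ (by norm_num) hnk
    have hAn : (0 : ℝ) < (A : ℝ) ^ n := by positivity
    have b2 : 1 / ((s * A ^ n : ℕ) : ℝ) ≤ 2 * Real.pi * k * 12 ^ k * Real.exp (-(κ * L / 5)) := by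
      have e1 : 1 / ((s * A ^ n : ℕ) : ℝ) ≤ 1 / (A : ℝ) ^ n := by
        apply one_div_le_one_div_of_le hAn
        rw [hVr]
        exact le_mul_of_one_le_left hAn.le hs'
      have e2 : 1 / (A : ℝ) ^ n ≤ 2 ^ n * Real.exp (-(n * L / 3)) := by
        rw [Real.exp_neg, div_le_iff₀ hAn]
        have := Real.exp_pos (n * L / 3)
        rw [show 2 ^ n * (Real.exp (n * L / 3))⁻¹ * (A : ℝ) ^ n
          = (2 ^ n * (A : ℝ) ^ n) / Real.exp (n * L / 3) by field_simp]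
        rw [le_div_iff₀ this, one_mul]
        exact hAlow
      have e3 : Real.exp (-(n * L / 3)) ≤ Real.exp (-(κ * L / 5)) := by
        apply Real.exp_le_exp.2
        linarith
      have e4 : (2 : ℝ) ^ n ≤ 2 * Real.pi * k * 12 ^ k := by
        have e5 : (2 : ℝ) ^ k ≤ 12 ^ k := pow_le_pow_left₀ (by norm_num) (by norm_num) k
        have e6 : (1 : ℝ) ≤ 2 * Real.pi * k := hpk
        calc (2 : ℝ) ^ n ≤ 1 * 12 ^ k := by rw [one_mul]; exact h2n.trans e5
          _ ≤ _ := mul_le_mul_of_nonneg_right e6 (by positivity)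
      exact (e1.trans e2).trans (mul_le_mul e4 e3 (Real.exp_pos _).le (by positivity))
    have b3 : 1 / (|θ| * ((s * A ^ n : ℕ) : ℝ) ^ 2)
        ≤ 2 * Real.pi * k * 12 ^ k * Real.exp (-(κ * L / 5)) := by
      have e0 : (A : ℝ) ^ (2 * n) ≤ ((s * A ^ n : ℕ) : ℝ) ^ 2 := by
        rw [hV2]
        exact le_mul_of_one_le_left (by positivity) (one_le_pow₀ hs')
      have e1 : 1 / (|θ| * ((s * A ^ n : ℕ) : ℝ) ^ 2) ≤ 1 / (|θ| * (A : ℝ) ^ (2 * n)) :=
        one_div_le_one_div_of_le (by positivity) (mul_le_mul_of_nonneg_left e0 hθpos.le)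
      refine e1.trans ?_
      have e2 : 1 / (|θ| * (A : ℝ) ^ (2 * n))
          ≤ (2 * Real.pi * (k : ℝ) * (3 * (N : ℝ)) ^ n) / (t * (A : ℝ) ^ (2 * n)) := by
        have hp := Real.pi_pos
        have g1 : 0 < t / (2 * Real.pi * k * (3 * (N : ℝ)) ^ n) := by positivity
        calc 1 / (|θ| * (A : ℝ) ^ (2 * n))
            ≤ 1 / (t / (2 * Real.pi * k * (3 * (N : ℝ)) ^ n) * (A : ℝ) ^ (2 * n)) :=
              one_div_le_one_div_of_le (by positivity)
                (mul_le_mul_of_nonneg_right hlo' (by positivity))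
          _ = _ := by field_simp
      refine e2.trans ?_
      rw [div_le_iff₀ (by positivity)]
      have e3 : Real.exp (2 * n * L / 3) ≤ 4 ^ n * (A : ℝ) ^ (2 * n) := by
        have := mul_self_le_mul_self (Real.exp_pos _).le hAlow
        rw [← Real.exp_add] at this
        refine le_trans (le_of_eq ?_) (this.trans (le_of_eq ?_))
        · congr 1; ring
        · rw [show (4 : ℝ) = 2 * 2 by norm_num, mul_pow, show 2 * n = n + n by ring, pow_add]
          ring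
      have e4 : Real.exp (n * L) ≤ Real.exp (-(κ * L / 5)) * (t * Real.exp (2 * n * L / 3)) := by
        rw [htκ, ← Real.exp_add, ← Real.exp_add]
        apply Real.exp_le_exp.2
        linarith
      calc 2 * Real.pi * (k : ℝ) * (3 * (N : ℝ)) ^ n
          = 2 * Real.pi * (k : ℝ) * (3 ^ n * Real.exp (n * L)) := by
            rw [← hNn, mul_pow]
        _ ≤ 2 * Real.pi * (k : ℝ) * (3 ^ n * (Real.exp (-(κ * L / 5)) *
              (t * (4 ^ n * (A : ℝ) ^ (2 * n))))) := by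
            apply mul_le_mul_of_nonneg_left _ (by positivity)
            apply mul_le_mul_of_nonneg_left _ (by positivity)
            refine e4.trans ?_
            apply mul_le_mul_of_nonneg_left _ (Real.exp_pos _).le
            exact mul_le_mul_of_nonneg_left e3 htp.le
        _ = 2 * Real.pi * (k : ℝ) * 12 ^ n * Real.exp (-(κ * L / 5)) * (t * (A : ℝ) ^ (2 * n)) := by
            rw [show (12 : ℝ) = 3 * 4 by norm_num, mul_pow]; ring
        _ ≤ 2 * Real.pi * (k : ℝ) * 12 ^ k * Real.exp (-(κ * L / 5)) * (t * (A : ℝ) ^ (2 * n)) := by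
            apply mul_le_mul_of_nonneg_right _ (by positivity)
            apply mul_le_mul_of_nonneg_right _ (Real.exp_pos _).le
            exact mul_le_mul_of_nonneg_left h12n (by positivity)
    have b1'' : |θ| ≤ 2 * Real.pi * k * 12 ^ k * Real.exp (-(κ * L / 5)) := by
      refine b1.trans ?_
      have e6 : (1 : ℝ) ≤ 2 * Real.pi * k * 12 ^ k := by
        have e7 : (1 : ℝ) ≤ 2 * Real.pi * k := hpk
        exact one_le_mul_of_one_le_of_one_le e7 (one_le_pow₀ (by norm_num))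
      exact le_mul_of_one_le_left (Real.exp_pos _).le e6
    have hU := u_bd θ (s * A ^ n) hV (by intro h0; rw [h0, abs_zero] at hθpos; exact lt_irrefl _ hθpos) b1'
    have hlogV : Real.log ((s * A ^ n : ℕ) : ℝ) ≤ s + k * L := by
      rw [hVr, Real.log_mul (by linarith) (by positivity), Real.log_pow]
      have e1 : Real.log (s : ℝ) ≤ s := (Real.log_le_sub_one_of_pos (by linarith)).trans (by linarith)
      have e2 : (n : ℝ) * Real.log A ≤ k * L := by
        have e3 : 0 ≤ Real.log (A : ℝ) := Real.log_nonneg hA'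
        apply mul_le_mul hnk' (by linarith) e3 (by linarith)
      linarith
    have hlogV0 : 0 ≤ Real.log ((s * A ^ n : ℕ) : ℝ) := Real.log_nonneg (by exact_mod_cast hV)
    refine hU.trans ?_
    calc 640 * (1 + Real.log ((s * A ^ n : ℕ) : ℝ)) * (((s * A ^ n : ℕ) : ℝ) ^ 2 *
          (|θ| + 1 / ((s * A ^ n : ℕ) : ℝ) + 1 / (|θ| * ((s * A ^ n : ℕ) : ℝ) ^ 2)))
        ≤ 640 * (1 + (s + k * L)) * (((s : ℝ) ^ 2 * (A : ℝ) ^ (2 * n)) *
          (3 * (2 * Real.pi * k * 12 ^ k * Real.exp (-(κ * L / 5))))) := by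
          rw [← hV2]
          have hV20 : (0 : ℝ) ≤ ((s * A ^ n : ℕ) : ℝ) ^ 2 := by positivity
          apply mul_le_mul
          · linarith
          · apply mul_le_mul_of_nonneg_left _ hV20
            linarith
          · apply mul_nonneg hV20
            have : 0 ≤ 1 / ((s * A ^ n : ℕ) : ℝ) := by positivity
            have : 0 ≤ 1 / (|θ| * ((s * A ^ n : ℕ) : ℝ) ^ 2) := by positivity
            linarith
          · positivity
      _ = 1 * (s : ℝ) ^ 2 * (3840 * Real.pi * k * 12 ^ k * (1 + s + k * L)) *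
          (A : ℝ) ^ (2 * n) * Real.exp (-(κ * L / 5)) := by ring
      _ ≤ 9 * (s : ℝ) ^ 2 * (3840 * Real.pi * k * 12 ^ k * (1 + s + k * L)) *
          (A : ℝ) ^ (2 * n) * Real.exp (-(κ * L / 5)) := by
          have e9 : 0 ≤ (s : ℝ) ^ 2 * (3840 * Real.pi * k * 12 ^ k * (1 + s + k * L)) *
            (A : ℝ) ^ (2 * n) * Real.exp (-(κ * L / 5)) := by positivity
          linarith
  · refine (u_triv _ _ hV).trans ?_
    rw [hV2, mul_one]
    have e9 : 0 ≤ 9 * ((s : ℝ) ^ 2 * (A : ℝ) ^ (2 * n)) := by positivity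
    calc 9 * ((s : ℝ) ^ 2 * (A : ℝ) ^ (2 * n))
        = 1 * (9 * ((s : ℝ) ^ 2 * (A : ℝ) ^ (2 * n))) := by ring
      _ ≤ (3840 * Real.pi * k * 12 ^ k * (1 + s + k * L)) *
          (9 * ((s : ℝ) ^ 2 * (A : ℝ) ^ (2 * n))) := mul_le_mul_of_nonneg_right hB e9
      _ = _ := by ring

theorem wbg : ∃ C c : ℝ, 0 < C ∧ 0 < c ∧ ∀ (k N : ℕ) (κ : ℝ) (α : Fin k → ℝ), 2 ≤ k → 2 ≤ N →
    1 / 2 ≤ κ → (k : ℝ) / 6 ≤ κ → κ ≤ (k : ℝ) / 3 →
    (∀ j : Fin k, (N : ℝ) ^ κ / (2 * Real.pi * k * (3 * (N : ℝ)) ^ ((j : ℕ) + 1)) ≤ |α j|) →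
    (∀ j : Fin k, |α j| ≤ (N : ℝ) ^ κ / (2 * (N : ℝ) ^ ((j : ℕ) + 1))) →
    ‖W k ⌊(N : ℝ) ^ ((1 : ℝ) / 3)⌋₊ α‖ ≤ (⌊(N : ℝ) ^ ((1 : ℝ) / 3)⌋₊ : ℝ) ^ 2 *
      Real.exp (C * (k : ℝ) ^ 3) * (1 + Real.log N) * (N : ℝ) ^ (-(c / (k : ℝ) ^ 2)) := by
  refine ⟨15, 1 / 141120, by norm_num, by norm_num, ?_⟩
  intro k N κ α hk hN hκ3 hκ4 hκ2 hlo hhi
  obtain ⟨hA, hA1, hA2⟩ := wb_A N hN
  set A : ℕ := ⌊(N : ℝ) ^ ((1 : ℝ) / 3)⌋₊ with hAdef
  have hN' : (2 : ℝ) ≤ N := by exact_mod_cast hN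
  have hN0 : (0 : ℝ) < N := by linarith
  have hk' : (2 : ℝ) ≤ k := by exact_mod_cast hk
  have hA' : (1 : ℝ) ≤ A := by exact_mod_cast hA
  set L := Real.log N with hL
  have hL0 : 0 < L := Real.log_pos (by linarith)
  have hNL : (N : ℝ) = Real.exp L := (Real.exp_log hN0).symm
  -- the exponent
  have htκ : (N : ℝ) ^ κ = Real.exp (κ * L) := by
    rw [Real.rpow_def_of_pos hN0, ← hL, mul_comm]
  -- parameters
  set l : ℕ := 6 * k + 1 with hl
  set s : ℕ := k * l with hs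
  have hs1 : 1 ≤ s := Nat.one_le_iff_ne_zero.2 (by positivity)
  have hsr : (s : ℝ) = k * (6 * k + 1) := by rw [hs, hl]; push_cast; ring
  have hlr : (l : ℝ) = 6 * k + 1 := by rw [hl]; push_cast; ring
  have hs7 : (s : ℝ) ≤ 7 * (k : ℝ) ^ 2 := by rw [hsr]; nlinarith
  have hs6 : 6 * (k : ℝ) ^ 2 ≤ s := by rw [hsr]; nlinarith
  have hs0 : (0 : ℝ) < s := by exact_mod_cast hs1
  have hdbl := dbl k s A (by omega) hs1 hA α
  have hJ := Pool.Agent.H43.VM.vmvt k l A hk (by omega) hA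
  set a := Real.log (A : ℝ) with ha
  have ha0 : 0 ≤ a := Real.log_nonneg hA'
  have hAe : (A : ℝ) = Real.exp a := (Real.exp_log (by linarith)).symm
  set lam := Pool.Agent.H43.VM.lamb k l with hlam
  set B : ℝ := 9 * (s : ℝ) ^ 2 * (3840 * Real.pi * k * 12 ^ k * (1 + s + k * L)) with hB
  have hBpos : 0 < B := by
    rw [hB]
    have := Real.pi_pos
    positivity
  set b := Real.log B with hb
  have hBe : B = Real.exp b := (Real.exp_log hBpos).symm
  have hbb : b ≤ 19 * k + Real.log (1 + L) := wb_const k hk s hs0 hs7 L hL0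
  set ev : Fin k → ℝ := fun j =>
    if (6 / 5 * κ ≤ ((j : ℕ) : ℝ) + 1 ∧ ((j : ℕ) : ℝ) + 1 ≤ 12 / 5 * κ) then 1 else 0 with hev
  have hfac : ∀ j : Fin k, U (α j) (s * A ^ ((j : ℕ) + 1)) ≤
      Real.exp (b + 2 * (((j : ℕ) : ℝ) + 1) * a - κ * L / 5 * ev j) := by
    intro j
    refine (wbg_fac k N _ α hN κ htκ hκ3 hlo hhi s A hs1 hA hA1 hA2 j).trans
      (le_of_eq ?_)
    rw [← hL, ← hB, hBe, hAe, ← Real.exp_nat_mul, hev]
    simp only
    split_ifs with h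
    · rw [← Real.exp_add, ← Real.exp_add]
      congr 1
      push_cast
      ring
    · rw [mul_one, ← Real.exp_add]
      congr 1
      push_cast
      ring
  have hU0 : ∀ j : Fin k, 0 ≤ U (α j) (s * A ^ ((j : ℕ) + 1)) := by
    intro j
    unfold U
    exact Finset.sum_nonneg fun _ _ => norm_nonneg _
  have hprod : ∏ j : Fin k, U (α j) (s * A ^ ((j : ℕ) + 1)) ≤
      Real.exp (∑ j : Fin k, (b + 2 * (((j : ℕ) : ℝ) + 1) * a - κ * L / 5 * ev j)) := by
    rw [Real.exp_sum]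
    exact Finset.prod_le_prod (fun j _ => hU0 j) (fun j _ => hfac j)
  have hsum : ∑ j : Fin k, (b + 2 * (((j : ℕ) : ℝ) + 1) * a - κ * L / 5 * ev j) ≤
      k * b + (k : ℝ) * (k + 1) * a - 2 / 25 * κ ^ 2 * L := by
    rw [Finset.sum_sub_distrib, Finset.sum_add_distrib, Finset.sum_const, Finset.card_univ,
      Fintype.card_fin, nsmul_eq_mul, ← Finset.sum_mul, ← Finset.mul_sum, ← Finset.mul_sum]
    have e1 : ∑ j : Fin k, (((j : ℕ) : ℝ) + 1) = (k : ℝ) * (k + 1) / 2 := by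
      rw [Fin.sum_univ_eq_sum_range (fun j => (j : ℝ) + 1) k]
      clear * -
      induction k with
      | zero => simp
      | succ n ih => rw [Finset.sum_range_succ, ih]; push_cast; ring
    have e2 : 2 / 5 * κ ≤ ∑ j : Fin k, ev j := by
      refine (wb_card κ k hκ3 hκ2).trans (le_of_eq ?_)
      rw [hev, Finset.sum_ite, Finset.sum_const_zero, add_zero, Finset.sum_const, nsmul_eq_mul,
        mul_one]
    rw [e1]
    have e3 : κ * L / 5 * (2 / 5 * κ) ≤ κ * L / 5 * ∑ j : Fin k, ev j :=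
      mul_le_mul_of_nonneg_left e2 (by positivity)
    linarith
  have hJ2 : (Pool.Agent.H43.VM.J k s A : ℝ) ^ 2 ≤
      Real.exp (80 * (k : ℝ) ^ 5 * (l : ℝ) ^ 2 * Real.log 2 + 2 * lam * a) := by
    have e1 : (Pool.Agent.H43.VM.J k s A : ℝ) ≤
        Real.exp (40 * (k : ℝ) ^ 5 * (l : ℝ) ^ 2 * Real.log 2 + lam * a) := by
      refine hJ.trans (le_of_eq ?_)
      rw [Real.exp_add]
      congr 1
      · rw [← Real.rpow_natCast, Real.rpow_def_of_pos (by norm_num)]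
        congr 1
        push_cast
        ring
      · rw [Real.rpow_def_of_pos (by linarith), mul_comm]
    have e2 := pow_le_pow_left₀ (Nat.cast_nonneg _) e1 2
    rw [← Real.exp_nat_mul] at e2
    refine e2.trans (le_of_eq ?_)
    congr 1
    push_cast
    ring
  have hA8 : (A : ℝ) ^ (8 * s ^ 2 - 4 * s) = Real.exp ((8 * (s : ℝ) ^ 2 - 4 * s) * a) := by
    rw [hAe, ← Real.exp_nat_mul]
    congr 1
    rw [Nat.cast_sub (by nlinarith)]
    push_cast
    ring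
  set δ : ℝ := (k : ℝ) * (k - 1) / 2 * (1 - 1 / (k : ℝ)) ^ (6 * k) with hδ
  have hδ1 : δ ≤ (k : ℝ) ^ 2 / 800 := wb_delta k hk
  have hlam2 : 2 * lam = 4 * s - (k : ℝ) * (k + 1) + 2 * δ := by
    rw [hlam, Pool.Agent.H43.VM.lamb, hδ, hsr, hlr]
    have : l - 1 = 6 * k := by omega
    rw [this]
    ring
  have hW : ‖W k A α‖ ^ (4 * s ^ 2) ≤
      Real.exp (8 * (s : ℝ) ^ 2 * a + 80 * (k : ℝ) ^ 5 * (l : ℝ) ^ 2 * Real.log 2 + k * b
        - (k : ℝ) ^ 2 / 720 * L) := by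
    refine hdbl.trans ?_
    have e1 : (A : ℝ) ^ (8 * s ^ 2 - 4 * s) * (Pool.Agent.H43.VM.J k s A : ℝ) ^ 2 *
        ∏ j : Fin k, U (α j) (s * A ^ ((j : ℕ) + 1)) ≤
        Real.exp ((8 * (s : ℝ) ^ 2 - 4 * s) * a) *
          Real.exp (80 * (k : ℝ) ^ 5 * (l : ℝ) ^ 2 * Real.log 2 + 2 * lam * a) *
          Real.exp (k * b + (k : ℝ) * (k + 1) * a - 2 / 25 * κ ^ 2 * L) := by
      rw [hA8]
      refine mul_le_mul (mul_le_mul_of_nonneg_left hJ2 (Real.exp_pos _).le)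
        (hprod.trans (Real.exp_le_exp.2 hsum)) (Finset.prod_nonneg fun j _ => hU0 j) (by positivity)
    refine e1.trans ?_
    rw [← Real.exp_add, ← Real.exp_add]
    apply Real.exp_le_exp.2
    rw [hlam2]
    have e2 : 2 * δ * a ≤ (k : ℝ) ^ 2 / 1200 * L := by
      have e3 : 2 * δ * a ≤ 2 * ((k : ℝ) ^ 2 / 800) * a :=
        mul_le_mul_of_nonneg_right (by linarith) ha0
      have e4 : 2 * ((k : ℝ) ^ 2 / 800) * a ≤ 2 * ((k : ℝ) ^ 2 / 800) * (L / 3) :=
        mul_le_mul_of_nonneg_left hA1 (by positivity)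
      linarith
    have e5 : (k : ℝ) ^ 2 / 450 * L ≤ 2 / 25 * κ ^ 2 * L := by
      apply mul_le_mul_of_nonneg_right _ hL0.le
      have := mul_self_le_mul_self (by positivity) hκ4
      linarith
    linarith
  have hn1 : 1 ≤ 4 * s ^ 2 := by
    have : 0 < s ^ 2 := by positivity
    omega
  have hroot := wb_root _ _ _ hn1 hW
  refine hroot.trans ?_
  have hfinal : (A : ℝ) ^ 2 * Real.exp (15 * (k : ℝ) ^ 3) * (1 + L) *
      (N : ℝ) ^ (-(1 / 141120 / (k : ℝ) ^ 2)) =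
      Real.exp (2 * a + 15 * (k : ℝ) ^ 3 + Real.log (1 + L) - 1 / 141120 / (k : ℝ) ^ 2 * L) := by
    rw [sub_eq_add_neg, Real.exp_add, Real.exp_add, Real.exp_add, Real.exp_log (by linarith),
      Real.rpow_def_of_pos hN0, hAe, ← Real.exp_nat_mul, ← hL]
    congr 2
    ring
  rw [hfinal]
  apply Real.exp_le_exp.2
  have hs2 : (0 : ℝ) < 4 * (s : ℝ) ^ 2 := by positivity
  have hcast : ((4 * s ^ 2 : ℕ) : ℝ) = 4 * (s : ℝ) ^ 2 := by push_cast; ring
  rw [hcast, div_le_iff₀ hs2]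
  have hlog2 : Real.log 2 ≤ 0.7 := Real.log_two_lt_d9.le.trans (by norm_num)
  have hlogL : 0 ≤ Real.log (1 + L) := Real.log_nonneg (by linarith)
  have f1 : 80 * (k : ℝ) ^ 5 * (l : ℝ) ^ 2 * Real.log 2 ≤ 14 * (k : ℝ) ^ 3 * (4 * (s : ℝ) ^ 2) := by
    have : 14 * (k : ℝ) ^ 3 * (4 * (s : ℝ) ^ 2) = 80 * (k : ℝ) ^ 5 * (l : ℝ) ^ 2 * 0.7 := by
      rw [hsr, hlr]; ring
    rw [this]
    exact mul_le_mul_of_nonneg_left hlog2 (by positivity)
  have hs2k : 144 * (k : ℝ) ^ 4 ≤ 4 * (s : ℝ) ^ 2 := by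
    have := mul_self_le_mul_self (by positivity) hs6
    linarith
  have f2 : k * b ≤ ((k : ℝ) ^ 3 + Real.log (1 + L)) * (4 * (s : ℝ) ^ 2) := by
    have g1 : (k : ℝ) * b ≤ k * (19 * k + Real.log (1 + L)) :=
      mul_le_mul_of_nonneg_left hbb (by linarith)
    have g2 : k * (19 * k + Real.log (1 + L)) ≤ ((k : ℝ) ^ 3 + Real.log (1 + L)) * (144 * (k : ℝ) ^ 4) := by
      have g3 : (1 : ℝ) ≤ (k : ℝ) ^ 3 := one_le_pow₀ (by linarith)
      have g4 : 19 * (k : ℝ) ^ 2 ≤ (k : ℝ) ^ 3 * (144 * (k : ℝ) ^ 4) := by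
        have g5 : (k : ℝ) ^ 2 ≤ (k : ℝ) ^ 7 := pow_le_pow_right₀ (by linarith) (by norm_num)
        have g6 : (0 : ℝ) ≤ (k : ℝ) ^ 7 := by positivity
        calc 19 * (k : ℝ) ^ 2 ≤ 144 * (k : ℝ) ^ 7 := by linarith
          _ = _ := by ring
      have g7 : (k : ℝ) ≤ 144 * (k : ℝ) ^ 4 := by
        have g8 : (k : ℝ) ^ 1 ≤ (k : ℝ) ^ 4 := pow_le_pow_right₀ (by linarith) (by norm_num)
        have g9 : (0 : ℝ) ≤ (k : ℝ) ^ 4 := by positivity
        rw [pow_one] at g8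
        linarith
      have g10 := mul_le_mul_of_nonneg_right g7 hlogL
      linarith
    refine g1.trans (g2.trans ?_)
    exact mul_le_mul_of_nonneg_left hs2k (by positivity)
  have f3 : 1 / 141120 / (k : ℝ) ^ 2 * L * (4 * (s : ℝ) ^ 2) ≤ (k : ℝ) ^ 2 / 720 * L := by
    have g1 : (s : ℝ) ^ 2 ≤ 49 * (k : ℝ) ^ 4 := by
      have := mul_self_le_mul_self hs0.le hs7
      linarith
    have g2 : 1 / 141120 / (k : ℝ) ^ 2 * L * (4 * (s : ℝ) ^ 2) ≤
        1 / 141120 / (k : ℝ) ^ 2 * L * (4 * (49 * (k : ℝ) ^ 4)) := by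
      apply mul_le_mul_of_nonneg_left _ (by positivity)
      linarith
    refine g2.trans (le_of_eq ?_)
    field_simp
    norm_num
  have f4 : (2 * a + 15 * (k : ℝ) ^ 3 + Real.log (1 + L) - 1 / 141120 / (k : ℝ) ^ 2 * L) *
      (4 * (s : ℝ) ^ 2) = 8 * (s : ℝ) ^ 2 * a + 14 * (k : ℝ) ^ 3 * (4 * (s : ℝ) ^ 2) +
      ((k : ℝ) ^ 3 + Real.log (1 + L)) * (4 * (s : ℝ) ^ 2) -
      1 / 141120 / (k : ℝ) ^ 2 * L * (4 * (s : ℝ) ^ 2) := by ring
  rw [f4]
  linarith

end Pool.Agent.H1.BT
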